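import Pool.Agent.Lib_helper82.GG.Defs

/-! # Existence of invariant jet differentials (MP_45e720_ag): jets and local analysis in `ℂ²`

Wanted statements (sections 0 and 2 of the paper). -/

set_option autoImplicit false
set_option linter.unusedVariables false
set_option linter.unusedSectionVars false

open Filter Topology Metric Set
open scoped Nat

namespace Pool.Agent.GG

open Pool.Agent.BR

/-! ## the polynomials of the chain rule -/

section jets

variable {k : ℕ}

/-- the jet of order `k` of a curve (without the value) -/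
noncomputable def jt (k : ℕ) (c : ℂ → V2) : Fin 2 × Fin k → ℂ :=
  fun v => iteratedDeriv ((v.2 : ℕ) + 1) (fun ζ => c ζ v.1) 0

/-- the curve with the jet `ξ` at `z` -/
noncomputable def cv (z : V2) (ξ : Fin 2 × Fin k → ℂ) (ζ : ℂ) : V2 :=
  fun j => z j + ∑ l : Fin k, ξ (j, l) * ζ ^ ((l : ℕ) + 1) / (((l : ℕ) + 1)! : ℕ)

end jets

/-! ## divisibility -/

section div

variable {T : Fin 3 → V2 → ℂ} {z₀ : V2}

/-! ## the derivatives with respect to the coordinates `T 1 / T 0`, `T 2 / T 0` -/

/-- the derivative of `h` with respect to the coordinate `T j.succ / T 0` -/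
noncomputable def dU (T : Fin 3 → V2 → ℂ) (j : Fin 2) (h : V2 → ℂ) (z : V2) : ℂ :=
  (if j = 0 then 1 else -1) * T 0 z *
    (pd 0 h z * (T 0 z * pd 1 (T (1 - j).succ) z - T (1 - j).succ z * pd 1 (T 0) z) -
      pd 1 h z * (T 0 z * pd 0 (T (1 - j).succ) z - T (1 - j).succ z * pd 0 (T 0) z)) / dl T z

/-! ## the main local statements -/

variable {k m n b : ℕ}

/-- an admissible frame along the curve `σ = 0` near `z₀`: the second vector is tangent to the
curve, and the determinant is one -/
structure AFr (σ : V2 → ℂ) (z₀ : V2) (M : V2 → Matrix (Fin 2) (Fin 2) ℂ) : Prop where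
  an : ∀ i j, AnalyticAt ℂ (fun z => M z i j) z₀
  det : ∀ᶠ z in 𝓝 z₀, (M z).det = 1
  tg : ∀ᶠ z in 𝓝 z₀, σ z = 0 → M z 0 1 = - pd 1 σ z ∧ M z 1 1 = pd 0 σ z

end div

end Pool.Agent.GG
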