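import Pool.Agent.Lib_helper82.GG.Defs
import Pool.Agent.Lib_helper82.GG.D.L

/-! # Existence of invariant jet differentials (MP_45e720_ag): the main statements of the parts -/

set_option autoImplicit false
set_option linter.unusedVariables false
set_option linter.unusedSectionVars false

open Filter Topology Metric Set
open scoped Manifold ContDiff

namespace Pool.Agent.GG

open Pool.Agent.BR

section

variable {X : Type} [MetricSpace X] [CompactSpace X] {A : Cha V2 X} {b D : ℕ}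
  {T : Fin 3 → A.ι → X → ℂ} {T₃ : A.ι → X → ℂ}

/-! ## the sections of the `b`-th power of the canonical bundle -/

/-- the sections `a j` of the `b`-th power of the canonical bundle generate all 2-jets and separate
the points -/
structure VV (A : Cha V2 X) (b M : ℕ) (a : Fin M → A.ι → X → ℂ) : Prop where
  b_pos : 0 < b
  ps : ∀ j, IS.PS A b (a j)
  jet : ∀ i, ∀ x ∈ (A.ch i).source, ∀ v : Fin 6 → ℂ, ∃ c : Fin M → ℂ,
    ∑ j, c j * a j i x = v 0 ∧ ∑ j, c j * ds A (a j) 0 i x = v 1 ∧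
    ∑ j, c j * ds A (a j) 1 i x = v 2 ∧
    ∑ j, c j * pd 0 (pd 0 (lz A i (a j i))) (A.ch i x) = v 3 ∧
    ∑ j, c j * pd 0 (pd 1 (lz A i (a j i))) (A.ch i x) = v 4 ∧
    ∑ j, c j * pd 1 (pd 1 (lz A i (a j i))) (A.ch i x) = v 5
  sep : ∀ x y, x ≠ y → ∀ i j, x ∈ (A.ch i).source → y ∈ (A.ch j).source →
    ∃ p q : Fin M, a p i x * a q j y ≠ a q i x * a p j y

/-! ## the norm lemma -/

/-! ## the dimension -/

/-! ## the stages -/

/-- the number of conditions for the type `t` -/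
noncomputable def cond (b D : ℕ) (κ : ℝ) {k : ℕ} (t : Fin 2 × Fin k → ℕ) : ℝ :=
  ∑ r ∈ Finset.Icc 1 (nj 0 t), ((D : ℝ) / b *
    max ((b : ℝ) * (r - nj 0 t) + (b + 1) * nj 1 t + (3 * b + 1) * (2 * b * dg t - nj 1 t)) 0 + κ) +
  ∑ r ∈ Finset.Icc 1 (2 * b * dg t - nj 0 t), ((3 * b + 1) * (D : ℝ) / b ^ 2 *
    max ((3 * b + 1) * ((r : ℝ) - nj 0 t + nj 1 t) + nj 1 t) 0 + κ)

/-! ## the count -/

/-! ## invariance -/

end

/-! ## assembly -/

end Pool.Agent.GG
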