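import Pool.Agent.Lib_helper82.GG.Defs
import Pool.Agent.Lib_helper82.GG.D.I

/-! # Existence of invariant jet differentials (MP_45e720_ag): covers and the norm lemma

Wanted statements (section 5 of the paper). -/

set_option autoImplicit false
set_option linter.unusedVariables false
set_option linter.unusedSectionVars false

open Filter Topology Metric Set

namespace Pool.Agent.GG

open Pool.Agent.BR

/-! ## complex analysis -/

section pure

end pure

/-! ## sections on the surface -/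

section surface

variable {X : Type} [MetricSpace X] [CompactSpace X] {A : Cha V2 X} {b D : ℕ}
  {T : Fin 3 → A.ι → X → ℂ}

/-- the quotient of two sections of the same weight -/
noncomputable def qt (A : Cha V2 X) (s t : A.ι → X → ℂ) (x : X) : ℂ := s (ci A x) x / t (ci A x) x

/-! ## pencils on smooth curves -/

/-- the fibre over `c` of the function `T' / T` on the curve `σ = 0` -/
def Pf (A : Cha V2 X) (σ T T' : A.ι → X → ℂ) (c : ℂ) : Set X :=
  {x | x ∈ ZS A σ ∧ x ∉ ZS A T ∧ ∀ i, x ∈ (A.ch i).source → T' i x = c * T i x}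

/-- the function `T' / T` on the smooth curve `σ = 0` -/
structure Pen (A : Cha V2 X) (e b : ℕ) (σ T T' : A.ι → X → ℂ) : Prop where
  b_pos : 0 < b
  ps : IS.PS A e σ
  psT : IS.PS A b T
  psT' : IS.PS A b T'
  sm : ∀ i, ∀ x ∈ (A.ch i).source, σ i x = 0 → ∃ j, ds A σ j i x ≠ 0
  nc : ∀ x ∈ ZS A σ, x ∉ ZS A T ∨ x ∉ ZS A T'
  zf : (ZS A σ ∩ ZS A T).Finite
  cr : {x | x ∈ ZS A σ ∧ x ∉ ZS A T ∧ ∀ i, x ∈ (A.ch i).source →
    ds A σ 0 i x * (T i x * ds A T' 1 i x - T' i x * ds A T 1 i x) -
    ds A σ 1 i x * (T i x * ds A T' 0 i x - T' i x * ds A T 0 i x) = 0}.Finite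

variable {e : ℕ} {σ S S' : A.ι → X → ℂ}

/-! ## the cover of the plane -/

/-- the function `δ ^ b / T 0 ^ (3 b + 1)` -/
noncomputable def Gf (A : Cha V2 X) (b : ℕ) (T : Fin 3 → A.ι → X → ℂ) (x : X) : ℂ :=
  dlt A T (ci A x) x ^ b / T 0 (ci A x) x ^ (3 * b + 1)

/-! ## conclusions -/

end surface

end Pool.Agent.GG
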