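import Pool.Agent.Lib_helper82.GG.Defs
import Pool.Agent.Lib_helper82.GG.D.N

/-! # Existence of invariant jet differentials (MP_45e720_ag): part F, the stages (section 3)

Wanted statements. `GGH.*` (Lib_helper58/GG/H1 - H4) is proved. -/

set_option autoImplicit false
set_option linter.unusedVariables false
set_option linter.unusedSectionVars false

open Filter Topology Metric Set
open scoped Nat

namespace Pool.Agent.GG

open Pool.Agent.BR

/-! ## local statements in `ℂ²` -/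

section loc

variable {k m n : ℕ} {T : Fin 3 → V2 → ℂ} {z₀ : V2}

/-- F2: the value at `z` of the analytic extension of `T 0 ^ (-r) * δ ^ (-s) * f` -/
noncomputable def vl (T : Fin 3 → V2 → ℂ) (r s : ℤ) (f : V2 → ℂ) (z : V2) : ℂ :=
  limUnder (𝓝[Gd T] z) (fun w => T 0 w ^ (-r) * dl T w ^ (-s) * f w)

/-! ### admissible frames at a point -/

/-- an admissible frame at the point `z` of the curve `σ = 0` -/
structure Adm (σ : V2 → ℂ) (z : V2) (M : Matrix (Fin 2) (Fin 2) ℂ) : Prop where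
  det : M.det = 1
  c0 : M 0 1 = - pd 1 σ z
  c1 : M 1 1 = pd 0 σ z

/-- F7: the polynomial of the values at `z` of the extensions of
`T 0 ^ (-r) * δ ^ (-s) * (part of degree n of P)` -/
noncomputable def VP (T : Fin 3 → V2 → ℂ) (n m : ℕ) (r s : ℤ) (P : V2 → JP k) (z : V2) : JP k :=
  ∑ t ∈ (Ty k m).filter (fun t : Fin 2 × Fin k →₀ ℕ => dg t = n),
    MvPolynomial.monomial t (vl T r s (fun w => (P w).coeff t) z)

end loc

/-! ## transport to the surface -/

section surf

variable {X : Type} [MetricSpace X] [CompactSpace X] {A : Cha V2 X} {b D k m n : ℕ}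
  {T : Fin 3 → A.ι → X → ℂ} {T₃ : A.ι → X → ℂ}

/-- the change of charts -/
noncomputable def tc (A : Cha V2 X) (i j : A.ι) : V2 → V2 := fun z => A.ch j ((A.ch i).symm z)

/-! ## the jet differentials `P_c` -/

/-- `P_c` in the chart `i`, as a function on `ℂ²` -/
noncomputable def pcf (A : Cha V2 X) (T : Fin 3 → A.ι → X → ℂ) {k : ℕ} (c : X → JP k) (i : A.ι)
    (z : V2) : JP k :=
  PC A T c i ((A.ch i).symm z)

/-- the orders of `c` at the point with the coordinates `z` in the chart `i` -/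
structure CO (A : Cha V2 X) (b : ℕ) (T : Fin 3 → A.ι → X → ℂ) (m : ℕ) {k : ℕ} (c : X → JP k) :
    Prop where
  oo : ∀ i, ∀ x ∈ (A.ch i).source, ∀ t : Fin 2 × Fin k →₀ ℕ,
    OO (lT A T i) (A.ch i x) (dg t) (-(2 * b * dg t)) (fun z => (c ((A.ch i).symm z)).coeff t)
  wh : ∀ x, Wh m (c x)

/-! ## the states -/

/-- the coefficients of degree `< n` of `P_c` are regular -/
def SL (A : Cha V2 X) (T : Fin 3 → A.ι → X → ℂ) {k : ℕ} (n : ℕ) (c : X → JP k) : Prop :=
  ∀ i, ∀ x ∈ (A.ch i).source, ∀ t : Fin 2 × Fin k →₀ ℕ, dg t < n →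
    OO (lT A T i) (A.ch i x) 0 0 (fun z => (pcf A T c i z).coeff t)

/-- the pole order of the part of degree `n` along `H`, off `R` -/
def SH (A : Cha V2 X) (T : Fin 3 → A.ι → X → ℂ) {k : ℕ} (n r : ℕ) (c : X → JP k) : Prop :=
  ∀ i, ∀ x ∈ (A.ch i).source, T 0 i x = 0 → dlt A T i x ≠ 0 → ∀ t : Fin 2 × Fin k →₀ ℕ,
    dg t = n → OO (lT A T i) (A.ch i x) (-r) 0 (fun z => (pcf A T c i z).coeff t)

/-- the values at the points of `H - R` in admissible frames vanish for the types with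
first number `< p` -/
def SHv (A : Cha V2 X) (T : Fin 3 → A.ι → X → ℂ) (m : ℕ) {k : ℕ} (n r p : ℕ) (c : X → JP k) :
    Prop :=
  ∀ i, ∀ x ∈ (A.ch i).source, T 0 i x = 0 → dlt A T i x ≠ 0 → ∀ M, Adm (lT A T i 0) (A.ch i x) M →
    ∀ t : Fin 2 × Fin k →₀ ℕ, dg t = n → nj 0 t < p →
      (Ls k M (VP (lT A T i) n m (-r) 0 (pcf A T c i) (A.ch i x))).coeff t = 0

/-- the pole order of the part of degree `n` along `R` -/
def SR (A : Cha V2 X) (T : Fin 3 → A.ι → X → ℂ) {k : ℕ} (n r : ℕ) (c : X → JP k) : Prop :=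
  ∀ i, ∀ x ∈ (A.ch i).source, dlt A T i x = 0 → ∀ t : Fin 2 × Fin k →₀ ℕ,
    dg t = n → OO (lT A T i) (A.ch i x) 0 (-r) (fun z => (pcf A T c i z).coeff t)

/-- the values at the points of `R` in admissible frames vanish for the types with
first number `< p` -/
def SRv (A : Cha V2 X) (T : Fin 3 → A.ι → X → ℂ) (m : ℕ) {k : ℕ} (n r p : ℕ) (c : X → JP k) :
    Prop :=
  ∀ i, ∀ x ∈ (A.ch i).source, dlt A T i x = 0 → ∀ M, Adm (dl (lT A T i)) (A.ch i x) M →
    ∀ t : Fin 2 × Fin k →₀ ℕ, dg t = n → nj 0 t < p →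
      (Ls k M (VP (lT A T i) n m 0 (-r) (pcf A T c i) (A.ch i x))).coeff t = 0

end surf

/-! ## linear algebra -/

section lin

variable {W : Type} [AddCommGroup W] [Module ℂ W] [FiniteDimensional ℂ W]

/-- there is a subspace of codimension at most `c` all of whose elements have the property `S` -/
def Ach (S : W → Prop) (c : ℝ) : Prop :=
  ∃ V : Submodule ℂ W, (Module.finrank ℂ W : ℝ) - c ≤ Module.finrank ℂ V ∧ ∀ w ∈ V, S w

end lin

end Pool.Agent.GG
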