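import Pool.Agent.Lib_helper82.GG.D.L
import Pool.Agent.Lib_helper82.GG.D.I
import Pool.Agent.Lib_helper82.GG.D.N
import Pool.Agent.Lib_helper82.GG.D.F
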